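import Pool.Agent.K.MP_459691_co.C0

set_option autoImplicit false

namespace Pool.Agent.Results.MP_459691_co.ConferenceOptimal

open Pool.Agent.Elspas.Conf

/-- One step beyond the Plotkin range. Put `d' = d + d % 2` and `n' = n + d % 2`, and let
`n ≥ 10 ^ 66`. If `n' = 2 d' + 1` is a prime power, an optimal binary code of length `n` and
distance `d` has exactly `2 n' + 2` words. -/
theorem result :
    ∀ n d : ℕ, 10 ^ 66 ≤ n → n + d % 2 = 2 * (d + d % 2) + 1 → IsPrimePow (n + d % 2) →
      ∀ C : Finset (Fin n → Bool),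
        (∀ x ∈ C, ∀ y ∈ C, x ≠ y → d ≤ hammingDist x y) →
        (∀ D : Finset (Fin n → Bool),
          (∀ x ∈ D, ∀ y ∈ D, x ≠ y → d ≤ hammingDist x y) → D.card ≤ C.card) →
        C.card = 2 * (n + d % 2) + 2 := by
  intro n d hn h hq C hC hmax
  rcases Nat.mod_two_eq_zero_or_one d with e | e
  · rw [e] at h hq ⊢
    simp only [add_zero] at h hq ⊢
    obtain ⟨D, hD, hc⟩ := lower_even hq (by omega) h
    have h1 := hmax D hD
    have h2 := upper_even hn h.le C hC
    omega
  · rw [e] at h hq ⊢
    obtain ⟨D, hD, hc⟩ := lower_odd hq e (by omega)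
    have h1 := hmax D hD
    have h2 := upper_odd hn (by omega) e C hC
    omega

end Pool.Agent.Results.MP_459691_co.ConferenceOptimal
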