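import Pool.Agent.K.MP_459691_co.C2

set_option autoImplicit false
open Pool.Agent.Elspas

namespace Pool.Agent.Results.MP_459691_co.PlotkinPolylog

/-- Levenshtein's value of `A(n,d)` without Hadamard matrices. Put `d' = d + d % 2`,
`n' = n + d % 2`, `K = ⌊d' / (2d' - n')⌋` and `L = ⌊log₂ K⌋ + 2`. If `d ≤ n`, `n' < 2d'` and
`2d' - n' ≥ 160000 L² (⌊log₂ L⌋ + 3)` (or `d ≥ 180 K² L`), every optimal code of length `n` and
distance `d` has `2K` words. -/
theorem result :
    ∀ n d K : ℕ, d ≤ n → n + d % 2 < 2 * (d + d % 2) →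
      K = (d + d % 2) / (2 * (d + d % 2) - (n + d % 2)) →
      (160000 * (Nat.log 2 K + 2) ^ 2 * (Nat.log 2 (Nat.log 2 K + 2) + 3)
          ≤ 2 * (d + d % 2) - (n + d % 2) ∨ 180 * K ^ 2 * (Nat.log 2 K + 2) ≤ d) →
      ∀ C : Finset (Fin n → Bool),
        (∀ x ∈ C, ∀ y ∈ C, x ≠ y → d ≤ hammingDist x y) →
        (∀ D : Finset (Fin n → Bool),
          (∀ x ∈ D, ∀ y ∈ D, x ≠ y → d ≤ hammingDist x y) → D.card ≤ C.card) →
        C.card = 2 * K := by
  intro n d K hdn hn hK hd C hC hmax
  obtain ⟨g, hg⟩ := Nat.exists_eq_add_of_lt hn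
  have hq : 2 * (d + d % 2) - (n + d % 2) = g + 1 := by omega
  rw [hq] at hK hd
  have h1 : K * (g + 1) ≤ d + d % 2 := by rw [hK]; exact Nat.div_mul_le_self _ _
  have h2 : d + d % 2 < (K + 1) * (g + 1) := by
    rw [hK, mul_comm]; exact Nat.lt_mul_div_succ _ (by omega)
  have hK1 : 1 ≤ K := by
    rw [hK, Nat.le_div_iff_mul_le (by omega)]; omega
  apply le_antisymm
  · by_contra hlt
    have := plotkin_code hK1 C hC (by omega)
    nlinarith
  · rcases Nat.lt_or_ge K 2 with h | h
    · have hK1' : K = 1 := by omega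
      have hne : (fun _ : Fin n => false) ≠ (fun _ => true) := by
        intro e
        have := congrFun e ⟨0, by omega⟩
        simp at this
      have hdist : hammingDist (fun _ : Fin n => false) (fun _ => true) = n := by
        simp [hammingDist]
      have := hmax {fun _ => false, fun _ => true} (by
        intro x hx y hy hxy
        simp only [Finset.mem_insert, Finset.mem_singleton] at hx hy
        rcases hx with rfl | rfl <;> rcases hy with rfl | rfl
        · exact absurd rfl hxy
        · rw [hdist]; exact hdn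
        · rw [hammingDist_comm, hdist]; exact hdn
        · exact absurd rfl hxy)
      rw [Finset.card_pair hne] at this
      omega
    · rcases hd with hd | hd
      · obtain ⟨b, hb⟩ := Nat.exists_eq_add_of_le h1
        have hG := Poly.good_polylog (q := g + 1) (b := b) h hd (by nlinarith)
          (by rw [mul_comm, ← hb]; omega)
        obtain ⟨D, hD, hc⟩ := code_of_good hG n d (d % 2) (by omega) (by omega)
          (by rw [mul_assoc]; omega)
        rw [← hc]; exact hmax D hD
      · obtain ⟨D, hD, hc⟩ := exists_code n d K h hd (by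
          obtain ⟨k, rfl⟩ : ∃ k, K = k + 1 := ⟨K - 1, by omega⟩
          rw [show 2 * (k + 1) - 1 = 2 * k + 1 by omega]
          nlinarith)
        rw [← hc]; exact hmax D hD

end Pool.Agent.Results.MP_459691_co.PlotkinPolylog
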