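import Pool.Agent.K.MP_459691_co.C0

set_option autoImplicit false

namespace Pool.Agent.Results.MP_459691_co.UpperBound

open Pool.Agent.Elspas.Conf

/-- One step beyond the Plotkin range. Put `d' = d + d % 2` and `n' = n + d % 2`, and let
`n ≥ 10 ^ 66`. If `n' ≤ 2 d' + 1`, a binary code of length `n` and distance `d` has at most
`2 n' + 2` words. -/
theorem result :
    ∀ n d : ℕ, 10 ^ 66 ≤ n → n + d % 2 ≤ 2 * (d + d % 2) + 1 →
      ∀ C : Finset (Fin n → Bool),
        (∀ x ∈ C, ∀ y ∈ C, x ≠ y → d ≤ hammingDist x y) → C.card ≤ 2 * (n + d % 2) + 2 := by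
  intro n d hn h C hC
  rcases Nat.mod_two_eq_zero_or_one d with e | e
  · rw [e] at h ⊢
    simp only [add_zero] at h ⊢
    exact upper_even hn h C hC
  · rw [e] at h ⊢
    exact upper_odd hn (by omega) e C hC

end Pool.Agent.Results.MP_459691_co.UpperBound
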